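import Pool.Agent.P8H74.WP.Stm

set_option autoImplicit false

/-!
# Project WP (helper74), package FF
-/

namespace Pool.Agent.P8H78.WP

open Polynomial Finset
open Pool.Agent.P8H74.WP

section

variable {k : Type} [Field k] [Fintype k]

theorem sum_low (P : k[X]) (h : P.natDegree < Fintype.card k - 1) : ∑ x : k, P.eval x = 0 := by
  simp only [eval_eq_sum_range]
  rw [sum_comm]
  refine sum_eq_zero fun i hi => ?_
  rw [← mul_sum, FiniteField.sum_pow_lt_card_sub_one k i (by
    rw [mem_range] at hi; omega), mul_zero]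

theorem sum_top : ∑ x : k, x ^ (Fintype.card k - 1) = -1 := by
  classical
  have hq : 1 < Fintype.card k := Fintype.one_lt_card
  rw [← sum_erase_add _ _ (mem_univ (0 : k)), zero_pow (by omega), add_zero]
  have h1 : ∀ x ∈ univ.erase (0 : k), x ^ (Fintype.card k - 1) = 1 := fun x hx =>
    FiniteField.pow_card_sub_one_eq_one x (ne_of_mem_erase hx)
  rw [sum_congr rfl h1, sum_const, card_erase_of_mem (mem_univ _), card_univ, nsmul_eq_mul, mul_one,
    Nat.cast_sub hq.le, FiniteField.cast_card_eq_zero, Nat.cast_one, zero_sub]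

theorem sum_deg (P : k[X]) (h : P.natDegree = Fintype.card k - 1) :
    ∑ x : k, P.eval x = -P.leadingCoeff := by
  simp only [eval_eq_sum_range]
  rw [sum_comm, sum_range_succ, sum_eq_zero, zero_add, ← mul_sum, h, sum_top, mul_neg, mul_one,
    ← h, leadingCoeff]
  intro i hi
  rw [← mul_sum, FiniteField.sum_pow_lt_card_sub_one k i (by
    rw [mem_range] at hi; omega), mul_zero]

end

theorem ff : S_FF := by
  classical
  intro k _ _ g hd hdvd
  have := Fintype.ofFinite k
  rw [Nat.card_eq_fintype_card] at hdvd ⊢
  set q := Fintype.card k with hq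
  set d := g.natDegree with hddef
  have hq1 : 1 < q := Fintype.one_lt_card
  obtain ⟨m, hm⟩ := hdvd
  have hm1 : 1 ≤ m := by
    rcases Nat.eq_zero_or_pos m with h | h
    · rw [h, mul_zero] at hm; omega
    · exact h
  have hmq : m < q - 1 := by nlinarith
  let N : k → ℕ := fun a => (univ.filter (fun x => g.eval x = a)).card
  let W : k → k := fun a => (N a : k) - 1
  have hfib : ∀ h : k → k, ∑ a, (N a : k) * h a = ∑ x, h (g.eval x) := by
    intro h
    rw [← sum_fiberwise univ (fun x => g.eval x) (fun x => h (g.eval x))]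
    refine sum_congr rfl fun a _ => ?_
    have : ∀ x ∈ univ.filter (fun x => g.eval x = a), h (g.eval x) = h a := by
      intro x hx
      rw [(mem_filter.1 hx).2]
    rw [sum_congr rfl this, sum_const, nsmul_eq_mul]
  have hW : ∀ h : k → k, ∑ a, W a * h a = ∑ x, h (g.eval x) - ∑ a, h a := by
    intro h
    rw [← hfib h, ← sum_sub_distrib]
    refine sum_congr rfl fun a _ => ?_
    show ((N a : k) - 1) * h a = _
    ring
  have hlow : ∀ h : k[X], h.natDegree < m → ∑ a, W a * h.eval a = 0 := by
    intro h hh
    rw [hW (fun a => h.eval a), sum_low h (by omega)]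
    have h2 : ∀ x, h.eval (g.eval x) = (h.comp g).eval x := fun x => (eval_comp).symm
    simp only [h2]
    rw [sum_low, sub_zero]
    rw [natDegree_comp, ← hddef, ← hq, hm]
    nlinarith
  have htop : ∑ a, W a * a ^ m ≠ 0 := by
    rw [hW (fun a => a ^ m), FiniteField.sum_pow_lt_card_sub_one k m hmq, sub_zero]
    have h2 : ∀ x, (g.eval x) ^ m = (g ^ m).eval x := fun x => (eval_pow m).symm
    simp only [h2]
    rw [sum_deg _ (by rw [natDegree_pow, ← hddef, ← hq, hm, mul_comm]), leadingCoeff_pow]
    have : g ≠ 0 := by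
      rintro rfl
      simp at hddef
      omega
    exact neg_ne_zero.2 (pow_ne_zero _ (leadingCoeff_ne_zero.2 this))
  let T : Finset k := univ.filter (fun a => W a ≠ 0)
  have hT : m + 1 ≤ T.card := by
    by_contra hlt
    have hne : T.Nonempty := by
      by_contra he
      rw [not_nonempty_iff_eq_empty] at he
      apply htop
      refine sum_eq_zero fun a _ => ?_
      have : a ∉ T := by rw [he]; exact notMem_empty a
      have h3 : W a = 0 := by
        by_contra h4
        exact this (mem_filter.2 ⟨mem_univ _, h4⟩)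
      rw [h3, zero_mul]
    obtain ⟨a₀, ha₀⟩ := hne
    let h : k[X] := ∏ a ∈ T.erase a₀, (X - C a)
    have hdeg : h.natDegree = T.card - 1 := by
      show (∏ a ∈ T.erase a₀, (X - C a)).natDegree = _
      rw [natDegree_prod_of_monic _ _ (fun a _ => monic_X_sub_C a)]
      simp [card_erase_of_mem ha₀]
    have hcard : 0 < T.card := card_pos.2 ⟨a₀, ha₀⟩
    have h1 := hlow h (by omega)
    have hev : ∀ b, h.eval b = ∏ a ∈ T.erase a₀, (b - a) := by
      intro b
      show (∏ a ∈ T.erase a₀, (X - C a)).eval b = _
      rw [eval_prod]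
      simp
    rw [sum_eq_single a₀] at h1
    · have h2 : W a₀ ≠ 0 := (mem_filter.1 ha₀).2
      refine (mul_ne_zero h2 ?_) h1
      rw [hev]
      refine prod_ne_zero_iff.2 fun a ha => sub_ne_zero.2 ?_
      exact fun hh => (ne_of_mem_erase ha) hh.symm
    · intro b _ hb
      by_cases hbT : b ∈ T
      · rw [hev, prod_eq_zero (mem_erase.2 ⟨hb, hbT⟩) (sub_self b), mul_zero]
      · have h3 : W b = 0 := by
          by_contra h4
          exact hbT (mem_filter.2 ⟨mem_univ _, h4⟩)
        rw [h3, zero_mul]
    · intro hh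
      exact absurd (mem_univ _) hh
  -- counting
  let Z : Finset k := univ.filter (fun a => N a = 0)
  let Y : Finset k := univ.filter (fun a => 2 ≤ N a)
  have hTZ : T ⊆ Z ∪ Y := by
    intro a ha
    have h2 : W a ≠ 0 := (mem_filter.1 ha).2
    have h3 : N a ≠ 1 := by
      intro h3
      apply h2
      show ((N a : ℕ) : k) - 1 = 0
      rw [h3]; simp
    rw [mem_union, mem_filter, mem_filter]
    rcases Nat.lt_or_ge (N a) 2 with h4 | h4
    · left; exact ⟨mem_univ _, by omega⟩
    · right; exact ⟨mem_univ _, h4⟩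
  have hsumN : ∑ a, N a = q := by
    have := card_eq_sum_card_fiberwise (s := (univ : Finset k)) (t := univ) (f := fun x => g.eval x)
      (fun x _ => mem_coe.2 (mem_univ _))
    rw [card_univ] at this
    exact this.symm
  have hYZ : Y.card ≤ Z.card := by
    have h1 : ∑ a : k, ((if 2 ≤ N a then 1 else 0) + 1) ≤ ∑ a : k, (N a + (if N a = 0 then 1 else 0)) := by
      refine sum_le_sum fun a _ => ?_
      split_ifs <;> omega
    rw [sum_add_distrib, sum_add_distrib, hsumN, ← card_filter, ← card_filter] at h1
    simp only [sum_const, card_univ, smul_eq_mul, mul_one] at h1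
    show (univ.filter (fun a => 2 ≤ N a)).card ≤ (univ.filter (fun a => N a = 0)).card
    omega
  have hZ : {a : k | ∀ x, g.eval x ≠ a}.ncard = Z.card := by
    rw [← Set.ncard_coe_finset]
    congr 1
    ext a
    rw [mem_coe, mem_filter]
    show (∀ x, g.eval x ≠ a) ↔ _
    constructor
    · intro h
      refine ⟨mem_univ _, ?_⟩
      show (univ.filter (fun x => g.eval x = a)).card = 0
      rw [card_eq_zero, filter_eq_empty_iff]
      exact fun x _ => h x
    · rintro ⟨-, h⟩ x hx
      have h' : (univ.filter (fun x => g.eval x = a)).card = 0 := h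
      rw [card_eq_zero, filter_eq_empty_iff] at h'
      exact h' (mem_univ x) hx
  rw [hZ]
  have h5 : m + 1 ≤ 2 * Z.card := by
    have := card_le_card hTZ
    have := card_union_le Z Y
    omega
  have h6 : q = d * m + 1 := by omega
  calc q = d * m + 1 := h6
    _ ≤ d * (m + 1) := by nlinarith
    _ ≤ d * (2 * Z.card) := Nat.mul_le_mul_left _ h5
    _ = 2 * d * Z.card := by ring

end Pool.Agent.P8H78.WP
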