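import Pool.Agent.P8H74.WP.Stm

set_option autoImplicit false

/-!
# Project WP (helper74), package PRM
-/

namespace Pool.Agent.P8H78.WP

open NumberField IsDedekindDomain
open Pool.Agent.P8H74.WP

theorem norm_nat (K : Type) [Field K] [NumberField K] (p : ℕ) :
    Algebra.norm ℤ (p : 𝓞 K) = (p : ℤ) ^ Module.finrank ℤ (𝓞 K) := by
  have h := Algebra.norm_algebraMap_of_basis (RingOfIntegers.basis K) (p : ℤ)
  rw [← Module.finrank_eq_card_basis (RingOfIntegers.basis K)] at h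
  rw [← h]
  congr 1
  simp

theorem prm : S_PRM := by
  intro K _ _ d hd
  by_contra hfin
  rw [Set.not_infinite] at hfin
  obtain ⟨B, hB⟩ := (hfin.image (fun v : HeightOneSpectrum (𝓞 K) => Ideal.absNorm v.asIdeal)).bddAbove
  obtain ⟨p, hp, hpB, hpm⟩ := Nat.exists_prime_gt_modEq_one (k := d) B hd.ne'
  have hp0 : (p : 𝓞 K) ≠ 0 := by exact_mod_cast hp.ne_zero
  have hnu : Ideal.span {(p : 𝓞 K)} ≠ ⊤ := by
    intro h
    have h1 : IsUnit (p : 𝓞 K) := Ideal.span_singleton_eq_top.1 h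
    have h2 : IsUnit (Algebra.norm ℤ (p : 𝓞 K)) := h1.map (Algebra.norm ℤ)
    rw [norm_nat, Int.isUnit_iff_natAbs_eq, Int.natAbs_pow, Int.natAbs_natCast] at h2
    have h3 : 0 < Module.finrank ℤ (𝓞 K) := by
      rw [RingOfIntegers.rank]
      exact Module.finrank_pos
    have := Nat.one_lt_pow h3.ne' hp.one_lt
    omega
  obtain ⟨M, hM, hle⟩ := Ideal.exists_le_maximal _ hnu
  have hpM : (p : 𝓞 K) ∈ M := hle (Ideal.mem_span_singleton_self _)
  have hMb : M ≠ ⊥ := by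
    rintro rfl
    exact hp0 (by simpa using hpM)
  let v : HeightOneSpectrum (𝓞 K) := ⟨M, hM.isPrime, hMb⟩
  have h1 : (Ideal.absNorm M : ℤ) ∣ Algebra.norm ℤ (p : 𝓞 K) := Ideal.absNorm_dvd_norm_of_mem hpM
  rw [norm_nat] at h1
  have h2 : Ideal.absNorm M ∣ p ^ Module.finrank ℤ (𝓞 K) := by exact_mod_cast h1
  obtain ⟨j, -, hj⟩ := (Nat.dvd_prime_pow hp).1 h2
  have hj0 : j ≠ 0 := by
    rintro rfl
    rw [pow_zero, Ideal.absNorm_eq_one_iff] at hj
    exact hM.ne_top hj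
  have h3 : d ∣ Ideal.absNorm v.asIdeal - 1 := by
    show d ∣ Ideal.absNorm M - 1
    rw [hj]
    have h4 : p ^ j ≡ 1 [MOD d] := by
      have := hpm.pow j
      rwa [one_pow] at this
    exact (Nat.modEq_iff_dvd' (Nat.one_le_pow _ _ hp.pos)).1 h4.symm
  have h5 : Ideal.absNorm v.asIdeal ≤ B := hB ⟨v, h3, rfl⟩
  have h6 : p ≤ Ideal.absNorm v.asIdeal := by
    show p ≤ Ideal.absNorm M
    rw [hj]
    exact Nat.le_self_pow hj0 p
  omega

end Pool.Agent.P8H78.WP
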